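import Pool.Agent.helper40.TG.Final

set_option autoImplicit false

namespace Pool.Agent.Results.MP_ce98d8_co.ExponentOneHalf

/-- For every `ε > 0` there are arbitrarily large `n` and a triangle-free graph on `n` vertices,
regular of degree `k`, with independence number exactly `k`, and `k < n ^ (1/2 + ε)`. -/
theorem result : ∀ ε : ℝ, 0 < ε → ∀ N : ℕ, ∃ n : ℕ, N ≤ n ∧
    ∃ (G : SimpleGraph (Fin n)) (k : ℕ),
      (∀ v : Fin n, (G.neighborSet v).ncard = k) ∧ G.CliqueFree 3 ∧ G.indepNum = k ∧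
        (k : ℝ) < (n : ℝ) ^ ((1 : ℝ) / 2 + ε) :=
  Pool.Agent.helper24.TG.final_one_half

end Pool.Agent.Results.MP_ce98d8_co.ExponentOneHalf
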